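import Pool.Agent.helper58.CRO.SpecB

/-! # Row `CUT` of project cro: the cut off Hamiltonian -/

open scoped Manifold ContDiff Topology ENNReal
open MeasureTheory Set

noncomputable section

namespace Pool.Agent.CRO

theorem CUT_low {n : ℕ} {r0 r1 : ℝ} (𝒢 : NChart n r0) (h1 : r1 < r0) :
    ∃ c : ℝ, 0 < c ∧ ∀ x v : En n, ‖x‖ ≤ r1 → c * ‖v‖ ^ 2 ≤ inner ℝ (𝒢.G x v) v := by
  have hK : IsCompact (Metric.closedBall (0 : En n) r1 ×ˢ Metric.sphere (0 : En n) 1) :=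
    (isCompact_closedBall _ _).prod (isCompact_sphere _ _)
  have hcont : ContinuousOn (fun z : En n × En n => (inner ℝ (𝒢.G z.1 z.2) z.2 : ℝ))
      (Metric.closedBall (0 : En n) r1 ×ˢ Metric.sphere (0 : En n) 1) := by
    have hG : ContinuousOn 𝒢.G (Metric.closedBall 0 r1) :=
      𝒢.smooth.continuousOn.mono (Metric.closedBall_subset_ball h1)
    have hG2 : ContinuousOn (fun z : En n × En n => 𝒢.G z.1)
        (Metric.closedBall (0 : En n) r1 ×ˢ Metric.sphere (0 : En n) 1) :=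
      hG.comp continuousOn_fst fun z hz => hz.1
    exact (hG2.clm_apply continuousOn_snd).inner continuousOn_snd
  obtain ⟨c, hc0, hc⟩ := hK.exists_forall_le' hcont (a := 0) (by
    intro z hz
    have hz1 : ‖z.1‖ ≤ r1 := mem_closedBall_zero_iff.1 hz.1
    have hz2 : ‖z.2‖ = 1 := mem_sphere_zero_iff_norm.1 hz.2
    refine (𝒢.pos z.1 (hz1.trans_lt h1)).2 z.2 ?_
    intro h0
    rw [h0, norm_zero] at hz2
    exact zero_ne_one hz2)
  refine ⟨c, hc0, fun x v hx => ?_⟩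
  by_cases hv : v = 0
  · rw [hv]; simp
  · have hvn : 0 < ‖v‖ := norm_pos_iff.2 hv
    have h2 := hc (x, ‖v‖⁻¹ • v) ⟨mem_closedBall_zero_iff.2 hx, by
      rw [mem_sphere_zero_iff_norm, norm_smul, norm_inv, norm_norm, inv_mul_cancel₀ hvn.ne']⟩
    simp only [map_smul, inner_smul_left, inner_smul_right] at h2
    have h3 : (starRingEnd ℝ) ‖v‖⁻¹ = ‖v‖⁻¹ := rfl
    rw [h3] at h2
    have h4 : ‖v‖ ^ 2 * c ≤ ‖v‖ ^ 2 * (‖v‖⁻¹ * (‖v‖⁻¹ * inner ℝ (𝒢.G x v) v)) :=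
      mul_le_mul_of_nonneg_left h2 (by positivity)
    have h5 : ‖v‖ ^ 2 * (‖v‖⁻¹ * (‖v‖⁻¹ * inner ℝ (𝒢.G x v) v)) = inner ℝ (𝒢.G x v) v := by
      field_simp
    rw [h5] at h4
    linarith

theorem CUT_smooth {n : ℕ} {r0 : ℝ} (𝒢 : NChart n r0) (z : PS n) (hz : ‖z.1‖ < r0) :
    ContDiffAt ℝ ∞ (ham 𝒢) z := by
  have hG : ContDiffAt ℝ ∞ 𝒢.G z.1 :=
    𝒢.smooth.contDiffAt (Metric.isOpen_ball.mem_nhds (mem_ball_zero_iff.2 hz))
  have hG2 : ContDiffAt ℝ ∞ (fun w : PS n => 𝒢.G w.1) z := hG.comp z contDiffAt_fst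
  have h2 : ContDiffAt ℝ ∞ (fun w : PS n => 𝒢.G w.1 w.2) z := hG2.clm_apply contDiffAt_snd
  have h3 : ContDiffAt ℝ ∞ (fun w : PS n => (inner ℝ (𝒢.G w.1 w.2) w.2 : ℝ)) z :=
    h2.inner ℝ contDiffAt_snd
  exact h3.div_const 2

theorem CUT : CUT_stmt := by
  intro n r0 r1 𝒢 hr1 hr
  obtain ⟨c, hc0, hc⟩ := CUT_low 𝒢 hr
  set P : ℝ := Real.sqrt (2 / c) + 1 with hP
  have hP0 : 0 < P := by positivity
  let χ₁ : ContDiffBump (0 : En n) := ⟨r1, (r1 + r0) / 2, hr1, by linarith⟩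
  let χ₂ : ContDiffBump (0 : En n) := ⟨P, P + 1, hP0, by linarith⟩
  refine ⟨fun z => χ₁ z.1 * χ₂ z.2 * ham 𝒢 z, ?_, ?_, ?_⟩
  · rw [contDiff_iff_contDiffAt]
    intro z
    rcases lt_or_ge ‖z.1‖ r0 with hz | hz
    · have e1 : ContDiffAt ℝ ∞ (fun w : PS n => χ₁ w.1) z :=
        χ₁.contDiff.contDiffAt.comp z contDiffAt_fst
      have e2 : ContDiffAt ℝ ∞ (fun w : PS n => χ₂ w.2) z :=
        χ₂.contDiff.contDiffAt.comp z contDiffAt_snd
      exact (e1.mul e2).mul (CUT_smooth 𝒢 z hz)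
    · have hev : (fun z : PS n => χ₁ z.1 * χ₂ z.2 * ham 𝒢 z) =ᶠ[𝓝 z] fun _ => 0 := by
        have ho : IsOpen {w : PS n | (r1 + r0) / 2 < ‖w.1‖} :=
          isOpen_lt continuous_const (continuous_norm.comp continuous_fst)
        have hm : z ∈ {w : PS n | (r1 + r0) / 2 < ‖w.1‖} := by
          rw [Set.mem_ofPred_eq]; linarith
        filter_upwards [ho.mem_nhds hm] with w hw
        have : χ₁ w.1 = 0 := χ₁.zero_of_le_dist (by rw [dist_zero_right]; exact hw.le)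
        rw [this, zero_mul, zero_mul]
      exact contDiffAt_const.congr_of_eventuallyEq hev
  · refine HasCompactSupport.intro ((isCompact_closedBall (0 : En n) ((r1 + r0) / 2)).prod
      (isCompact_closedBall (0 : En n) (P + 1))) ?_
    intro z hz
    by_cases h1 : ‖z.1‖ ≤ (r1 + r0) / 2
    · have h2 : P + 1 < ‖z.2‖ := by
        by_contra hcon
        rw [not_lt] at hcon
        exact hz ⟨mem_closedBall_zero_iff.2 h1, mem_closedBall_zero_iff.2 hcon⟩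
      have : χ₂ z.2 = 0 := χ₂.zero_of_le_dist (by rw [dist_zero_right]; exact h2.le)
      simp only [this, mul_zero, zero_mul]
    · rw [not_le] at h1
      have : χ₁ z.1 = 0 := χ₁.zero_of_le_dist (by rw [dist_zero_right]; exact h1.le)
      simp only [this, zero_mul]
  · intro z hz1 hz2
    have e1 : χ₁ z.1 = 1 := χ₁.one_of_mem_closedBall (mem_closedBall_zero_iff.2 hz1.le)
    have e2 : χ₂ z.2 = 1 := by
      refine χ₂.one_of_mem_closedBall (mem_closedBall_zero_iff.2 ?_)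
      have h3 := hc z.1 z.2 hz1.le
      have h4 : c * ‖z.2‖ ^ 2 < 2 := h3.trans_lt hz2
      have h5 : ‖z.2‖ ^ 2 ≤ 2 / c := by rw [le_div_iff₀ hc0]; linarith
      have h6 : ‖z.2‖ ≤ Real.sqrt (2 / c) := Real.le_sqrt_of_sq_le h5
      exact h6.trans (show Real.sqrt (2 / c) ≤ P by rw [hP]; linarith)
    simp only [e1, e2, one_mul]

end Pool.Agent.CRO
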