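import Pool.Agent.helper58.CRO.SpecD

/-! # Row `GOP` of project cro: the operator of the metric in a chart -/

open scoped Manifold ContDiff Topology ENNReal
open MeasureTheory Set Bundle

noncomputable section

namespace Pool.Agent.CRO

universe u

/-- the matrix of a bilinear form -/
def GOP_m {n : ℕ} (b : En n → En n → ℝ) : Matrix (Fin n) (Fin n) ℝ :=
  Matrix.of fun i j : Fin n => b (EuclideanSpace.single i 1) (EuclideanSpace.single j 1)

theorem GOP_exp {n : ℕ} (b : En n → En n → ℝ) (hs : ∀ v w, b v w = b w v)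
    (ha : ∀ v v' w, b (v + v') w = b v w + b v' w) (hm : ∀ (c : ℝ) v w, b (c • v) w = c * b v w)
    (v w : En n) : b v w = ∑ i, ∑ j, v i * (w j * b (EuclideanSpace.single i 1) (EuclideanSpace.single j 1)) := by
  have h0 : ∀ w, b 0 w = 0 := fun w => by
    have := hm 0 0 w
    rw [zero_smul, zero_mul] at this
    exact this
  have hsum : ∀ (s : Finset (Fin n)) (f : Fin n → En n) (w : En n),
      b (∑ i ∈ s, f i) w = ∑ i ∈ s, b (f i) w := by
    classical
    intro s f w
    induction s using Finset.induction_on with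
    | empty => rw [Finset.sum_empty, Finset.sum_empty, h0]
    | insert a s has ih => rw [Finset.sum_insert has, Finset.sum_insert has, ha, ih]
  have hexp : ∀ v : En n, v = ∑ i, v i • EuclideanSpace.single i (1 : ℝ) := by
    intro v
    have h := (EuclideanSpace.basisFun (Fin n) ℝ).sum_repr v
    simp only [EuclideanSpace.basisFun_repr, EuclideanSpace.basisFun_apply] at h
    exact h.symm
  have hl : ∀ (v w : En n), b v w = ∑ i, v i * b (EuclideanSpace.single i 1) w := by
    intro v w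
    conv_lhs => rw [hexp v]
    rw [hsum]
    exact Finset.sum_congr rfl fun i _ => hm _ _ _
  rw [hl v w]
  refine Finset.sum_congr rfl fun i _ => ?_
  rw [hs, hl w, Finset.mul_sum]
  refine Finset.sum_congr rfl fun j _ => ?_
  rw [hs]

theorem GOP_inner {n : ℕ} (b : En n → En n → ℝ) (hs : ∀ v w, b v w = b w v)
    (ha : ∀ v v' w, b (v + v') w = b v w + b v' w) (hm : ∀ (c : ℝ) v w, b (c • v) w = c * b v w)
    (v w : En n) : inner ℝ (Matrix.toEuclideanCLM (𝕜 := ℝ) (GOP_m b) v) w = b v w := by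
  rw [real_inner_comm, Matrix.inner_toEuclideanCLM, GOP_exp b hs ha hm v w]
  simp only [dotProduct, Matrix.mulVec, GOP_m, Matrix.of_apply, Finset.mul_sum]
  rw [Finset.sum_comm]
  refine Finset.sum_congr rfl fun i _ => Finset.sum_congr rfl fun j _ => ?_
  rw [hs (EuclideanSpace.single j 1) (EuclideanSpace.single i 1)]
  ring

theorem GOP_main {n : ℕ} (b : En n → En n → ℝ) (hs : ∀ v w, b v w = b w v)
    (ha : ∀ v v' w, b (v + v') w = b v w + b v' w) (hm : ∀ (c : ℝ) v w, b (c • v) w = c * b v w)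
    (hp : ∀ v, v ≠ 0 → 0 < b v v) :
    (∀ v w, inner ℝ (Matrix.toEuclideanCLM (𝕜 := ℝ) (GOP_m b) v) w = b v w) ∧
      PosDefOp (Matrix.toEuclideanCLM (𝕜 := ℝ) (GOP_m b)) ∧ 0 < (GOP_m b).det ∧
      (∀ v, Matrix.toEuclideanCLM (𝕜 := ℝ) (GOP_m b)⁻¹
        (Matrix.toEuclideanCLM (𝕜 := ℝ) (GOP_m b) v) = v) ∧
      (∀ v, Matrix.toEuclideanCLM (𝕜 := ℝ) (GOP_m b)
        (Matrix.toEuclideanCLM (𝕜 := ℝ) (GOP_m b)⁻¹ v) = v) := by
  have h1 := GOP_inner b hs ha hm
  have hpd : (GOP_m b).PosDef := by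
    refine Matrix.PosDef.of_dotProduct_mulVec_pos ?_ ?_
    · ext i j
      rw [Matrix.conjTranspose_apply, star_trivial]
      exact hs _ _
    · intro x hx
      have h2 := h1 (WithLp.toLp 2 x) (WithLp.toLp 2 x)
      rw [real_inner_comm, Matrix.inner_toEuclideanCLM] at h2
      have h3 : (0 : ℝ) < b (WithLp.toLp 2 x) (WithLp.toLp 2 x) := by
        apply hp
        intro h0
        apply hx
        have := congrArg WithLp.ofLp h0
        simpa using this
      rw [← h2] at h3
      simpa using h3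
  have hdet := hpd.det_pos
  have hu : IsUnit (GOP_m b).det := isUnit_iff_ne_zero.2 hdet.ne'
  refine ⟨h1, ⟨fun v w => ?_, fun v hv => ?_⟩, hdet, fun v => ?_, fun v => ?_⟩
  · rw [h1, real_inner_comm, h1, hs]
  · rw [h1]; exact hp v hv
  · have e : Matrix.toEuclideanCLM (𝕜 := ℝ) ((GOP_m b)⁻¹ * (GOP_m b)) = 1 := by
      rw [Matrix.nonsing_inv_mul _ hu, map_one]
    rw [map_mul] at e
    exact congrArg (fun f : En n →L[ℝ] En n => f v) e
  · have e : Matrix.toEuclideanCLM (𝕜 := ℝ) ((GOP_m b) * (GOP_m b)⁻¹) = 1 := by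
      rw [Matrix.mul_nonsing_inv _ hu, map_one]
    rw [map_mul] at e
    exact congrArg (fun f : En n →L[ℝ] En n => f v) e

theorem GOP (h1 : CBL_stmt.{u}) : GOP_stmt.{u} := by
  intro n M _ _ _ g e he y hy
  obtain ⟨hs, ha, hm, hp⟩ := h1 n M g e he y hy
  exact GOP_main (coef g e y) hs ha hm hp

end Pool.Agent.CRO
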